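import Pool.Agent.Lib.MP_8daebb_an.AE.Main
import Pool.Agent.Lib.MP_8daebb_an.AE.Unif
import Pool.Agent.Lib.MP_8daebb_an.AE.Cor
import Pool.Agent.Lib.MP_8daebb_an.TB.Dec

/-! Allard's regularity theorem with an exceptional set, in any dimension and codimension. -/

open MeasureTheory Metric Set Filter Topology
open scoped RealInnerProductSpace ContDiff
open Pool.Agent.Lib.MP_8daebb_an

theorem Pool.Agent.Results.MP_8daebb_an.AllardExceptional.result {E : Type}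
    [NormedAddCommGroup E] [InnerProductSpace ℝ E] [FiniteDimensional ℝ E]
    [MeasurableSpace E] [BorelSpace E] (m : ℕ) (hm : 1 ≤ m) (Q : ℝ) :
    ∃ ε > 0, ∃ c > 0, ∀ (U : Set E), IsOpen U → ∀ (V : Measure (E × (E →L[ℝ] E))),
      IsStationaryVarifold m U V → IsIntegralVarifold m V →
      ∀ x₀ ∈ V.fst.support, ∀ r > 0, ball x₀ r ⊆ U →
      V.fst (ball x₀ r) ≤ ENNReal.ofReal ((Q + ε) * omega m * r ^ m) →
      V.fst ({x | ¬∃ θ, Q ≤ θ ∧ HasDensity m V.fst x θ} ∩ ball x₀ r) ≤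
        ENNReal.ofReal (ε * r ^ m) →
      ∃ (ι : EuclideanSpace ℝ (Fin m) →ₗᵢ[ℝ] E) (f : EuclideanSpace ℝ (Fin m) → E),
        ContDiff ℝ ∞ f ∧ (∀ p q, ⟪f p, ι q⟫ = 0) ∧
        V.fst.support ∩ ball x₀ (c * r) = (range fun p => x₀ + ι p + f p) ∩ ball x₀ (c * r) := by
  obtain ⟨ε, hε, c, hc, h⟩ := AE.allard_of (H := E) (AE.ev_regular_unif hm) Q
  exact ⟨ε, hε, c, hc, fun U hU V hV hi x₀ hx r hr hb h1 h2 =>
    h U V hU hV (TB.isIntW_of hV hU hi).1 (TB.isIntW_of hV hU hi).2 x₀ hx r hr hb h1 h2⟩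

/-- Q1 as a consequence of `result`: the hypotheses of Q1 give those of `result` at small radii.
The flat tangent cone is not used. -/
theorem Pool.Agent.Results.MP_8daebb_an.AllardExceptional.q1 {E : Type}
    [NormedAddCommGroup E] [InnerProductSpace ℝ E] [FiniteDimensional ℝ E]
    [MeasurableSpace E] [BorelSpace E] (m : ℕ) (hm : 1 ≤ m)
    (U : Set E) (hU : IsOpen U) (V : Measure (E × (E →L[ℝ] E)))
    (hV : IsStationaryVarifold m U V) (hi : IsIntegralVarifold m V)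
    (x₀ : E) (hx₀ : x₀ ∈ U) (hx₀s : x₀ ∈ V.fst.support)
    (Q : ℝ) (hd : HasDensity m V.fst x₀ Q)
    (_ht : ∃ π : EuclideanSpace ℝ (Fin m) →ₗᵢ[ℝ] E, HasFlatTangent m V.fst x₀ Q π)
    (hbad : Tendsto (fun r : ℝ =>
      (V.fst ({x | ¬HasDensity m V.fst x Q} ∩ ball x₀ r)).toReal / r ^ m) (𝓝[>] 0) (𝓝 0)) :
    ∃ ρ > 0, ∃ (ι : EuclideanSpace ℝ (Fin m) →ₗᵢ[ℝ] E) (f : EuclideanSpace ℝ (Fin m) → E),
      ContDiff ℝ ∞ f ∧ (∀ p q, ⟪f p, ι q⟫ = 0) ∧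
      V.fst.support ∩ ball x₀ ρ = (range fun p => x₀ + ι p + f p) ∩ ball x₀ ρ := by
  obtain ⟨ε, hε, c, hc, h⟩ :=
    Pool.Agent.Results.MP_8daebb_an.AllardExceptional.result (E := E) m hm Q
  obtain ⟨r, hr, h1, h2, h3⟩ := AE.exists_radius hV hU hx₀ hε hd hbad
  exact ⟨c * r, mul_pos hc hr, h U hU V hV hi x₀ hx₀s r hr h1 h2 h3⟩
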